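import Pool.Agent.Lib.MP_6bc78b_nt.GP.H43.Defs10b

/-! Project GP11 (MP_6bc78b_nt): the number of simple zeros in almost all windows of a fixed
bounded length tends to infinity, under RH. Definitions and statements of the rows.
`L = log T`, `l = log log T`. -/

set_option autoImplicit false

open Complex Filter Topology MeasureTheory ArithmeticFunction Set
open scoped ENNReal

namespace Pool.Agent.Lib.MP_6bc78b_nt.GP.G11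

open Pool.Agent.Lib.MP_6bc78b_nt.MS Pool.Agent.Lib.MP_6bc78b_nt.MS.P1
open Pool.Agent.Lib.MP_6bc78b_nt.GP Pool.Agent.Lib.MP_6bc78b_nt.GP.G7
open Pool.Agent.Lib.MP_6bc78b_nt.GP.G10

/-! ## Definitions -/

/-- `A(s) = ∑ a(m) m^{-s}`, complex coefficients. -/
noncomputable def cA (S : Finset ℕ) (a : ℕ → ℂ) (s : ℂ) : ℂ :=
  ∑ m ∈ S, a m * (m : ℂ) ^ (-s)

/-- `Q(a) = ∑ a(m) conj a(m') / [m, m']`: the mean of `|A|²` with the weight `|ζ|²`. -/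
noncomputable def Qf (S : Finset ℕ) (a : ℕ → ℂ) : ℝ :=
  (∑ m ∈ S, ∑ m' ∈ S, a m * (starRingEnd ℂ) (a m') / (Nat.lcm m m' : ℂ)).re

/-- The same with absolute values. -/
noncomputable def Rf (S : Finset ℕ) (a : ℕ → ℂ) : ℝ :=
  ∑ m ∈ S, ∑ m' ∈ S, ‖a m‖ * ‖a m'‖ / (Nat.lcm m m' : ℝ)

/-- `S_X(s) = ∑ n^{-s} e^{-n/X}`. -/
noncomputable def SX (X : ℝ) (s : ℂ) : ℂ :=
  ∑' n : ℕ, if n = 0 then 0 else (n : ℂ) ^ (-s) * ((Real.exp (-(n / X)) : ℝ) : ℂ)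

/-- `P_y(u) = ∑_{p ≤ y} p^{-1/2-iu}`. -/
noncomputable def Py (y : ℕ) (u : ℝ) : ℂ :=
  ∑ p ∈ (Finset.Icc 1 y).filter Nat.Prime, (p : ℂ) ^ (-(1 / 2 + u * I : ℂ))

/-- `V_y = ∑_{p ≤ y} 1/p`. -/
noncomputable def Vy (y : ℕ) : ℝ := ∑ p ∈ (Finset.Icc 1 y).filter Nat.Prime, 1 / (p : ℝ)

/-- The simple zeros near `t` with a derivative of size at least `M`. -/
def zn (t lam M : ℝ) : Set ℝ :=
  {γ : ℝ | |γ - t| < lam ∧ mz γ = 1 ∧ M ≤ ‖deriv riemannZeta (1 / 2 + γ * I)‖}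

/-! ## Rows: the twisted second moment -/

/-- TS0: contour shift from `Re w = 2` to `Re w = -c` (poles at `w = 0` and `w = 1 - s`). -/
def TS0Statement : Prop := ∀ (s : ℂ) (X c : ℝ), 0 < s.re → s.re < 1 → s.im ≠ 0 → 0 < X →
  0 < c → c < 1 →
  Integrable (fun v : ℝ => ‖riemannZeta (s - c + v * I)‖ * ‖Complex.Gamma (-c + v * I)‖) ∧
  ‖riemannZeta s - SX X s‖ ≤ ‖Complex.Gamma (1 - s)‖ * X ^ (1 - s.re) +
    X ^ (-c) / (2 * Real.pi) *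
      ∫ v : ℝ, ‖riemannZeta (s - c + v * I)‖ * ‖Complex.Gamma (-c + v * I)‖

/-- QFN: the form is nonnegative (`1/[m,m'] = ∑_{b | (m,m')} φ(b) / (m m')`). -/
def QFNStatement : Prop := ∀ (S : Finset ℕ) (a : ℕ → ℂ), (∀ m ∈ S, 1 ≤ m) →
  0 ≤ Qf S a ∧ Qf S a ≤ Rf S a

/-- TSA (MVTX): mean square of `S_X(s) A(s)`, general coefficients. -/
def TSAStatement : Prop := ∃ C T0 : ℝ, 0 < C ∧ 10 < T0 ∧
  ∀ (T σ X : ℝ) (S : Finset ℕ) (a : ℕ → ℂ), T0 ≤ T → 1 / 2 - 1 / Real.log T ≤ σ →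
    σ ≤ 1 / 2 + 1 / Real.log T →
    (∀ m ∈ S, 1 ≤ m ∧ (m : ℝ) ≤ Real.exp (Real.log (Real.log T) ^ 6)) →
    Real.sqrt T ≤ X → X ≤ T / Real.exp (3 * Real.log (Real.log T) ^ 6) →
    ∫⁻ t in Icc (T / 4) (6 * T), ENNReal.ofReal (‖SX X (σ + t * I) * cA S a (σ + t * I)‖ ^ 2) ≤
      ENNReal.ofReal (C * T * (Real.log T * Qf S a + Real.log (Real.log T) ^ 6 * Rf S a))

/-- TSB (TS0, MVTX, ZMS): to the right of the critical line, crude form, twisted by any phases. -/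
def TSBStatement : Prop := ∃ C T0 : ℝ, 0 < C ∧ 10 < T0 ∧
  ∀ (T σ : ℝ) (S : Finset ℕ) (a : ℕ → ℂ), T0 ≤ T →
    1 / 2 + 1 / (2 * Real.log (Real.log T) ^ 6) ≤ σ → σ ≤ 3 / 4 →
    (∀ m ∈ S, 1 ≤ m ∧ (m : ℝ) ≤ Real.exp (Real.log (Real.log T) ^ 6)) →
    ∫⁻ t in Icc (T / 8) (8 * T),
      ENNReal.ofReal (‖riemannZeta (σ + t * I) * cA S a (1 / 2 + t * I)‖ ^ 2) ≤
      ENNReal.ofReal (C * T * (Real.log (Real.log T) ^ 7 * Rf S a))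

/-- TS (TS0, TSA, TSB, CHI, GAMB): the twisted second moment near the critical line. -/
def TSStatement : Prop := ∃ C T0 : ℝ, 0 < C ∧ 10 < T0 ∧
  ∀ (T σ : ℝ) (S : Finset ℕ) (a : ℕ → ℂ), T0 ≤ T → 1 / 2 - 1 / Real.log T ≤ σ →
    σ ≤ 1 / 2 + 1 / Real.log T →
    (∀ m ∈ S, 1 ≤ m ∧ (m : ℝ) ≤ Real.exp (Real.log (Real.log T) ^ 6)) →
    ∫⁻ t in Icc (T / 3) (5 * T),
      ENNReal.ofReal (‖riemannZeta (σ + t * I) * cA S a (σ + t * I)‖ ^ 2) ≤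
      ENNReal.ofReal (C * T * (Real.log T * Qf S a + Real.log (Real.log T) ^ 10 * Rf S a))

/-- TSD (TS, CEL, Cauchy): the twisted mean square of `ζ'` over the zeros. -/
def TSDStatement : Prop := RiemannHypothesis → ∃ C T0 : ℝ, 0 < C ∧ 10 < T0 ∧
  ∀ (T : ℝ) (S : Finset ℕ) (a : ℕ → ℂ), T0 ≤ T →
    (∀ m ∈ S, 1 ≤ m ∧ (m : ℝ) ≤ Real.exp (Real.log (Real.log T) ^ 6)) →
    ∀ F : Finset ℝ, (∀ γ ∈ F, T / 2 < γ ∧ γ < 4 * T ∧ riemannZeta (1 / 2 + γ * I) = 0) →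
      ∑ γ ∈ F, ‖deriv riemannZeta (1 / 2 + γ * I)‖ ^ 2 * ‖cA S a (1 / 2 + γ * I)‖ ^ 2 ≤
      C * T * (Real.log T ^ 4 * Qf S a + Real.log T ^ 3 * Real.log (Real.log T) ^ 10 * Rf S a)

/-! ## Rows: the barrier -/

/-- TYP: typical windows: `exp(P_y)` in mean square and subharmonicity. -/
def TYPStatement : Prop := ∃ C : ℝ, 0 < C ∧ ∀ (y : ℕ) (lam K : ℝ), 2 ≤ y → 1 ≤ lam → 0 ≤ K →
  ∃ T0 : ℝ, 10 < T0 ∧ ∀ T : ℝ, T0 ≤ T →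
    volume {t : ℝ | T ≤ t ∧ t ≤ 2 * T ∧ ∃ u : ℝ, |u - t| ≤ lam ∧ Vy y + K < (Py y u).re} ≤
      ENNReal.ofReal (C * lam * Real.exp (-(2 * K)) * T)

/-- SCG: one scale. A polynomial of degree 4 in `Re (P_{y'} - P_y)`, a sum of two squares, at
least `1` below the barrier, of mean at most `9/10` for the weight `|ζ|²`. -/
def SCGStatement : Prop := ∀ (y : ℕ) (K : ℝ), ∃ (y' : ℕ) (S : Fin 2 → Finset ℕ)
  (a : Fin 2 → ℕ → ℂ), y < y' ∧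
    (∀ i, ∀ m ∈ S i, 1 ≤ m ∧ ∀ p : ℕ, p.Prime → p ∣ m → y < p ∧ p ≤ y') ∧
    (∀ u : ℝ, (Py y' u - Py y u).re ≤ Vy y' - Vy y + K →
      1 ≤ ∑ i, ‖cA (S i) (a i) (1 / 2 + u * I)‖ ^ 2) ∧
    ∑ i, Qf (S i) (a i) ≤ 9 / 10

/-- FAM (TYP, SCG): a finite family of fixed polynomials. -/
def FAMStatement : Prop := ∀ δ lam η : ℝ, 0 < δ → 1 ≤ lam → 0 < η →
  ∃ (n : ℕ) (S : Fin n → Finset ℕ) (a : Fin n → ℕ → ℂ), (∀ i, ∀ m ∈ S i, 1 ≤ m) ∧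
    ∑ i, Qf (S i) (a i) ≤ δ ∧ ∃ T0 : ℝ, 10 < T0 ∧ ∀ T : ℝ, T0 ≤ T →
      volume {t : ℝ | T ≤ t ∧ t ≤ 2 * T ∧
        ∃ u : ℝ, |u - t| ≤ lam ∧ ∑ i, ‖cA (S i) (a i) (1 / 2 + u * I)‖ ^ 2 < 1} ≤
        ENNReal.ofReal (η * T)

/-! ## Rows: the zeros -/

/-- NEAR (the rows of CHB10P; `c` absolute, `lam` depends on `ε` only): the sum of
`|ζ'(ρ) B(ρ)|` over the simple zeros near `t` with `|ζ'(ρ)| ≥ M log T` is large, for a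
polynomial `B` whose square is again short with a bounded form. -/
def NEARStatement : Prop := RiemannHypothesis → ∃ c : ℝ, 0 < c ∧ ∀ ε : ℝ, 0 < ε →
  ∃ lam : ℝ, 1 ≤ lam ∧ ∀ M : ℝ, 0 < M → ∃ T0 : ℝ, 10 < T0 ∧ ∀ T : ℝ, T0 ≤ T →
    ∃ (S : Finset ℕ) (β : ℕ → ℝ) (S2 : Finset ℕ) (β2 : ℕ → ℂ),
      (∀ m ∈ S2, 1 ≤ m ∧ (m : ℝ) ≤ Real.exp (Real.log (Real.log T) ^ 6)) ∧
      (∀ s : ℂ, cA S2 β2 s = pB S β s ^ 2) ∧ Rf S2 β2 ≤ 2 ∧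
      volume {t : ℝ | T ≤ t ∧ t ≤ 2 * T ∧ ∀ F : Finset ℝ,
        (∀ γ : ℝ, γ ∈ F ↔ γ ∈ zn t lam (M * Real.log T)) →
        ∑ γ ∈ F, ‖deriv riemannZeta (1 / 2 + γ * I)‖ * ‖pB S β (1 / 2 + γ * I)‖ <
          c * lam * Real.log T ^ 2} ≤ ENNReal.ofReal (ε * T)

/-- CHB11 (NEAR, TSD, FAM): the centres with at most `A` simple zeros within `lam(ε)`. -/
def CHB11Statement : Prop := RiemannHypothesis → ∀ ε : ℝ, 0 < ε → ∃ lam : ℝ, 1 ≤ lam ∧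
  ∀ A M : ℝ, 0 < A → 0 < M → ∃ T0 : ℝ, 10 < T0 ∧ ∀ T : ℝ, T0 ≤ T →
    volume {t : ℝ | T ≤ t ∧ t ≤ 2 * T ∧ ((zn t lam (M * Real.log T)).ncard : ℝ) ≤ A} ≤
      ENNReal.ofReal (ε * T)

/-- Count11 (FIN11 from CHB11): for every `ε` there is `h0` such that for all `A` and `M`, for all
large `T`, outside a set of `t ∈ [0, T]` of measure at most `ε T`, every window `(t, t + h)`,
`h0 ≤ h ≤ T`, contains at least `A h` simple zeros with `|Z'| ≥ M log T`. -/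
def Count11Statement : Prop := RiemannHypothesis → ∀ ε : ℝ, 0 < ε → ∃ h0 : ℝ, 1 ≤ h0 ∧
  ∀ A M : ℝ, 0 < A → 0 < M → ∃ T0 : ℝ, 10 < T0 ∧ ∀ T : ℝ, T0 ≤ T →
    volume {t : ℝ | 0 ≤ t ∧ t ≤ T ∧ ∃ h : ℝ, h0 ≤ h ∧ h ≤ T ∧
      (({γ : ℝ | t < γ ∧ γ < t + h ∧ zeroMult γ = 1 ∧
        M * Real.log T ≤ |deriv hardyZ γ|}.ncard : ℕ) : ℝ) ≤ A * h} ≤
      ENNReal.ofReal (ε * T)

end Pool.Agent.Lib.MP_6bc78b_nt.GP.G11
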