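import Pool.Agent.Lib.MP_6bc78b_nt.MS.P5.HM.MomB
import Pool.Agent.Lib.MP_6bc78b_nt.MS.P4.H30.Zfac

/-! Project GP10, module SQB (helper11): the mean square of a short Dirichlet polynomial with
nonnegative coefficients over the zeros between `T/2` and `4T`. -/

set_option autoImplicit false

open Complex Filter Topology MeasureTheory ArithmeticFunction Set

namespace Pool.Agent.Lib.MP_6bc78b_nt.GP.H11

open Pool.Agent.Lib.MP_6bc78b_nt Pool.Agent.Lib.MP_6bc78b_nt.MS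

/-- The ordinates of the zeros between `T/2` and `4T`. -/
def zr (T : ℝ) : Set ℝ := {γ : ℝ | T / 2 < γ ∧ γ < 4 * T ∧ riemannZeta (1 / 2 + γ * I) = 0}

/-- SQB: `∑ |B(ρ)|²` over the zeros between `T/2` and `4T`, for short `B` with nonnegative
coefficients (RH). -/
def SQBStatement : Prop := RiemannHypothesis → ∃ C T0 : ℝ, 0 < C ∧ 10 < T0 ∧ ∀ T : ℝ, T0 ≤ T →
  ∀ (d : ℕ → ℝ) (N : ℕ), (∀ n, 0 ≤ d n ∧ d n ≤ T / 4) → (N : ℝ) ≤ T ^ (1 / 2 : ℝ) / 2 →
    ∑ᶠ γ ∈ zr T, (mz γ : ℝ) *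
      ‖∑ n ∈ Finset.Icc 1 N, (d n : ℂ) * (n : ℂ) ^ (-(1 / 2 + γ * I : ℂ))‖ ^ 2 ≤
      C * (T * Real.log T * (∑ n ∈ Finset.Icc 1 N, d n ^ 2 / (n : ℝ)) + Real.log T)

theorem zr_fin (T : ℝ) : (zr T).Finite := by
  refine (H11.zeros_in_compact_finite (4 * |T|)).subset ?_
  rintro γ ⟨h1, h2, h3⟩
  refine ⟨?_, h3⟩
  rcases le_or_gt 0 T with h | h
  · rw [abs_of_nonneg h, abs_le]
    constructor <;> linarith
  · rw [abs_of_neg h, abs_le]
    constructor <;> linarith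

/-- The coefficients cut off at `N`. -/
noncomputable def cut (d : ℕ → ℝ) (N : ℕ) : ArithmeticFunction ℝ :=
  ⟨fun n => if 1 ≤ n ∧ n ≤ N then d n else 0, by simp⟩

theorem cut_apply (d : ℕ → ℝ) (N n : ℕ) : cut d N n = if 1 ≤ n ∧ n ≤ N then d n else 0 := rfl

theorem PD_cut (d : ℕ → ℝ) {N M : ℕ} (h : N ≤ M) (s : ℂ) :
    MS.P5.HM.PD (cut d N) M s = ∑ n ∈ Finset.Icc 1 N, (d n : ℂ) * (n : ℂ) ^ (-s) := by
  unfold MS.P5.HM.PD
  have h1 : Finset.Icc 1 N ⊆ Finset.Icc 1 M := Finset.Icc_subset_Icc_right h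
  rw [← Finset.sum_subset h1]
  · refine Finset.sum_congr rfl fun n hn => ?_
    rw [Finset.mem_Icc] at hn
    rw [cut_apply, if_pos hn]
  · intro n hn hn2
    rw [Finset.mem_Icc] at hn hn2
    rw [cut_apply, if_neg hn2]
    simp

theorem sum_cut (d : ℕ → ℝ) {N M : ℕ} (h : N ≤ M) :
    ∑ n ∈ Finset.Icc 1 M, cut d N n ^ 2 / (n : ℝ) = ∑ n ∈ Finset.Icc 1 N, d n ^ 2 / (n : ℝ) := by
  have h1 : Finset.Icc 1 N ⊆ Finset.Icc 1 M := Finset.Icc_subset_Icc_right h
  rw [← Finset.sum_subset h1]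
  · refine Finset.sum_congr rfl fun n hn => ?_
    rw [Finset.mem_Icc] at hn
    rw [cut_apply, if_pos hn]
  · intro n hn hn2
    rw [Finset.mem_Icc] at hn hn2
    rw [cut_apply, if_neg hn2]
    simp

/-- One centre. -/
theorem one_centre {S : ℝ} {d : ℕ → ℝ} {N : ℕ} (hf : (zset S).Finite)
    (h : (ZS S (fun s => MS.P5.HM.PD (cut d N) ⌊S ^ (1 - (1 / 2) : ℝ)⌋₊ s *
      (starRingEnd ℂ) (MS.P5.HM.PD (cut d N) ⌊S ^ (1 - (1 / 2) : ℝ)⌋₊ s))).re ≤
        cG S * Real.log S * ∑ n ∈ Finset.Icc 1 ⌊S ^ (1 - (1 / 2) : ℝ)⌋₊,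
          cut d N n ^ 2 / (n : ℝ) + 10)
    (hN : N ≤ ⌊S ^ (1 - (1 / 2) : ℝ)⌋₊) :
    ∑ γ ∈ hf.toFinset, (mz γ : ℝ) * MS.wt S γ *
      ‖∑ n ∈ Finset.Icc 1 N, (d n : ℂ) * (n : ℂ) ^ (-(1 / 2 + γ * I : ℂ))‖ ^ 2 ≤
      cG S * Real.log S * (∑ n ∈ Finset.Icc 1 N, d n ^ 2 / (n : ℝ)) + 10 := by
  rw [P4.H70.ZS_re_eq_sum hf, sum_cut d hN] at h
  refine le_trans (le_of_eq ?_) h
  refine Finset.sum_congr rfl fun γ _ => ?_
  rw [MS.P5.HM.re_mul_conj, PD_cut d hN]

/-- The step between the centres. -/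
noncomputable def stp (T : ℝ) : ℝ := T / (4 * Real.log T ^ (2 / 3 : ℝ))

theorem logs {T S : ℝ} (hT : 16 ≤ T) (h1 : T / 2 ≤ S) (h2 : S ≤ 4 * T) :
    Real.log T / 2 ≤ Real.log S ∧ Real.log S ≤ 2 * Real.log T ∧ 1 ≤ Real.log T := by
  have hT0 : 0 < T := by linarith
  have hS0 : 0 < S := by linarith
  have h3 : Real.log (T / 2) ≤ Real.log S := Real.log_le_log (by linarith) h1
  have h4 : Real.log S ≤ Real.log (4 * T) := Real.log_le_log hS0 h2
  have h5 : Real.log (T / 2) = Real.log T - Real.log 2 := Real.log_div hT0.ne' (by norm_num)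
  have h6 : Real.log (4 * T) = Real.log 4 + Real.log T :=
    Real.log_mul (by norm_num) hT0.ne'
  have h7 : Real.log 16 ≤ Real.log T := Real.log_le_log (by norm_num) hT
  have h8 : Real.log 16 = 4 * Real.log 2 := by
    rw [show (16 : ℝ) = 2 ^ (4 : ℕ) by norm_num, Real.log_pow]
    norm_num
  have h9 : Real.log 4 = 2 * Real.log 2 := by
    rw [show (4 : ℝ) = 2 ^ (2 : ℕ) by norm_num, Real.log_pow]
    norm_num
  have h10 : 0.6931471803 < Real.log 2 := Real.log_two_gt_d9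
  refine ⟨?_, ?_, ?_⟩ <;> nlinarith

theorem dd_bounds {T S : ℝ} (hT : 16 ≤ T) (h1 : T / 2 ≤ S) (h2 : S ≤ 4 * T) :
    stp T ≤ DD S ∧ DD S ≤ 8 * T / Real.log T ^ (2 / 3 : ℝ) ∧ 0 < stp T ∧ stp T ≤ T / 4 := by
  obtain ⟨h3, h4, h5⟩ := logs hT h1 h2
  have hT0 : 0 < T := by linarith
  have hL : 0 < Real.log T := by linarith
  have hLS : 0 < Real.log S := by linarith
  have hp : 0 < Real.log T ^ (2 / 3 : ℝ) := Real.rpow_pos_of_pos hL _
  have hpS : 0 < Real.log S ^ (2 / 3 : ℝ) := Real.rpow_pos_of_pos hLS _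
  have h2p : (2 : ℝ) ^ (2 / 3 : ℝ) ≤ 2 := by
    calc (2 : ℝ) ^ (2 / 3 : ℝ) ≤ (2 : ℝ) ^ (1 : ℝ) :=
          Real.rpow_le_rpow_of_exponent_le (by norm_num) (by norm_num)
      _ = 2 := Real.rpow_one 2
  have h6 : Real.log S ^ (2 / 3 : ℝ) ≤ 2 * Real.log T ^ (2 / 3 : ℝ) := by
    calc Real.log S ^ (2 / 3 : ℝ) ≤ (2 * Real.log T) ^ (2 / 3 : ℝ) :=
          Real.rpow_le_rpow hLS.le h4 (by norm_num)
      _ = 2 ^ (2 / 3 : ℝ) * Real.log T ^ (2 / 3 : ℝ) := Real.mul_rpow (by norm_num) hL.le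
      _ ≤ 2 * Real.log T ^ (2 / 3 : ℝ) := by gcongr
  have h7 : Real.log T ^ (2 / 3 : ℝ) ≤ 2 * Real.log S ^ (2 / 3 : ℝ) := by
    calc Real.log T ^ (2 / 3 : ℝ) ≤ (2 * Real.log S) ^ (2 / 3 : ℝ) :=
          Real.rpow_le_rpow hL.le (by linarith) (by norm_num)
      _ = 2 ^ (2 / 3 : ℝ) * Real.log S ^ (2 / 3 : ℝ) := Real.mul_rpow (by norm_num) hLS.le
      _ ≤ 2 * Real.log S ^ (2 / 3 : ℝ) := by gcongr
  have h8 : (1 : ℝ) ≤ Real.log T ^ (2 / 3 : ℝ) := Real.one_le_rpow h5 (by norm_num)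
  refine ⟨?_, ?_, ?_, ?_⟩
  · unfold stp DD
    rw [div_le_div_iff₀ (by positivity) hpS]
    have : T * Real.log S ^ (2 / 3 : ℝ) ≤ T * (2 * Real.log T ^ (2 / 3 : ℝ)) := by gcongr
    nlinarith
  · unfold DD
    rw [div_le_div_iff₀ hpS hp]
    have : S * Real.log T ^ (2 / 3 : ℝ) ≤ (4 * T) * (2 * Real.log S ^ (2 / 3 : ℝ)) :=
      mul_le_mul h2 h7 hp.le (by positivity)
    nlinarith
  · unfold stp; positivity
  · unfold stp
    rw [div_le_div_iff₀ (by positivity) (by norm_num)]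
    nlinarith

/-- SQB. -/
theorem sqb (hZ : RiemannHypothesis → MS.P5.HM.ZduStatement) : SQBStatement := by
  classical
  intro hRH
  obtain ⟨T1, hT1, h⟩ := hZ hRH (1 / 2) (by norm_num) (by norm_num)
  refine ⟨6000, max (2 * T1) 16, by norm_num, lt_of_lt_of_le (by norm_num) (le_max_right _ _),
    fun T hT d N hd hN => ?_⟩
  have hT16 : 16 ≤ T := le_trans (le_max_right _ _) hT
  have hTT : 2 * T1 ≤ T := le_trans (le_max_left _ _) hT
  have hT0 : 0 < T := by linarith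
  obtain ⟨-, -, hL1⟩ := logs hT16 (show T / 2 ≤ T by linarith) (by linarith)
  obtain ⟨-, -, hs0, hs4⟩ := dd_bounds hT16 (show T / 2 ≤ T by linarith) (by linarith)
  set L : ℝ := Real.log T with hL
  set Q : ℝ := ∑ n ∈ Finset.Icc 1 N, d n ^ 2 / (n : ℝ) with hQ
  have hQ0 : 0 ≤ Q := Finset.sum_nonneg fun n _ => by positivity
  set F : ℝ → ℝ := fun γ =>
    ‖∑ n ∈ Finset.Icc 1 N, (d n : ℂ) * (n : ℂ) ^ (-(1 / 2 + γ * I : ℂ))‖ ^ 2 with hF
  have hF0 : ∀ γ, 0 ≤ F γ := fun γ => by positivity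
  set h0 : ℝ := stp T with hh0
  set J : ℕ := ⌈7 * T / (2 * h0)⌉₊ with hJ
  set S : ℕ → ℝ := fun j => T / 2 + j * h0 with hS
  have hzf : ∀ x : ℝ, (zset x).Finite := fun x => by
    refine (H11.zeros_in_compact_finite (2 * |x|)).subset ?_
    rintro γ ⟨h1, h2, h3⟩
    refine ⟨?_, h3⟩
    rcases le_or_gt 0 x with h | h
    · rw [abs_of_nonneg h, abs_le]
      constructor <;> linarith
    · rw [abs_of_neg h, abs_le]
      constructor <;> linarith
  have hp : 0 < L ^ (2 / 3 : ℝ) := Real.rpow_pos_of_pos (by linarith) _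
  have hp1 : 1 ≤ L ^ (2 / 3 : ℝ) := Real.one_le_rpow hL1 (by norm_num)
  have hpL : L ^ (2 / 3 : ℝ) ≤ T := by
    calc L ^ (2 / 3 : ℝ) ≤ L ^ (1 : ℝ) := Real.rpow_le_rpow_of_exponent_le hL1 (by norm_num)
      _ = L := Real.rpow_one _
      _ ≤ T := (Real.log_le_sub_one_of_pos hT0).trans (by linarith)
  -- one centre
  have hone : ∀ j : ℕ, j < J → S j ≤ 4 * T →
      ∑ γ ∈ (hzf (S j)).toFinset, (mz γ : ℝ) * MS.wt (S j) γ * F γ ≤
        6 * T * L / L ^ (2 / 3 : ℝ) * Q + 10 := by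
    intro j _ hj
    have hS1 : T / 2 ≤ S j := by
      show T / 2 ≤ T / 2 + j * h0
      have : 0 ≤ (j : ℝ) * h0 := by positivity
      linarith
    have hcut : ∀ n, 0 ≤ cut d N n ∧ cut d N n ≤ S j := by
      intro n
      rw [cut_apply]
      split_ifs
      · exact ⟨(hd n).1, (hd n).2.trans (by linarith)⟩
      · exact ⟨le_refl _, by linarith⟩
    have hNM : N ≤ ⌊(S j) ^ (1 - (1 / 2) : ℝ)⌋₊ := by
      refine Nat.le_floor ?_
      have h3 : (T / 4) ^ (1 / 2 : ℝ) = T ^ (1 / 2 : ℝ) / 2 := by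
        rw [Real.div_rpow hT0.le (by norm_num)]
        congr 1
        rw [show (4 : ℝ) = 2 ^ (2 : ℝ) by norm_num, ← Real.rpow_mul (by norm_num)]
        norm_num
      calc (N : ℝ) ≤ T ^ (1 / 2 : ℝ) / 2 := hN
        _ = (T / 4) ^ (1 / 2 : ℝ) := h3.symm
        _ ≤ (S j) ^ (1 / 2 : ℝ) := Real.rpow_le_rpow (by linarith) (by linarith) (by norm_num)
        _ = (S j) ^ (1 - (1 / 2) : ℝ) := by norm_num
    have h4 := h (S j) (by linarith) (cut d N) hcut (fun n hn => by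
      rw [cut_apply, if_neg]
      rintro ⟨-, h5⟩
      omega)
    have h5 := one_centre (hzf (S j)) h4 hNM
    refine h5.trans ?_
    obtain ⟨-, h6, h7⟩ := logs hT16 hS1 hj
    obtain ⟨h8, h9, -, -⟩ := dd_bounds hT16 hS1 hj
    have hDD0 : 0 < DD (S j) := lt_of_lt_of_le hs0 h8
    have hlog0 : 0 ≤ Real.log (S j) := by
      have := (logs hT16 hS1 hj).1
      linarith
    have h10 : cG (S j) ≤ 3 * T / L ^ (2 / 3 : ℝ) := by
      unfold cG
      have hpi : 1.7 ≤ Real.sqrt Real.pi := by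
        apply Real.le_sqrt_of_sq_le
        have := Real.pi_gt_three
        nlinarith
      calc DD (S j) / (2 * Real.sqrt Real.pi) ≤ (8 * T / L ^ (2 / 3 : ℝ)) / (2 * 1.7) := by
            gcongr
        _ ≤ 3 * T / L ^ (2 / 3 : ℝ) := by
            rw [div_div, div_le_div_iff₀ (by positivity) hp]
            nlinarith [mul_pos hT0 hp]
    have h11 : cG (S j) * Real.log (S j) ≤ 6 * T * L / L ^ (2 / 3 : ℝ) := by
      calc cG (S j) * Real.log (S j) ≤ (3 * T / L ^ (2 / 3 : ℝ)) * (2 * L) :=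
            mul_le_mul h10 h6 hlog0 (by positivity)
        _ = 6 * T * L / L ^ (2 / 3 : ℝ) := by ring
    have h12 := mul_le_mul_of_nonneg_right h11 hQ0
    linarith
  -- covering
  have hcov : ∀ γ ∈ (zr_fin T).toFinset, (mz γ : ℝ) * F γ ≤
      3 * ∑ j ∈ (Finset.range J).filter (fun j => S j ≤ 4 * T ∧ γ ∈ zset (S j)),
        (mz γ : ℝ) * MS.wt (S j) γ * F γ := by
    intro γ hγ
    rw [Set.Finite.mem_toFinset] at hγ
    obtain ⟨g1, g2, g3⟩ := hγ
    set j : ℕ := ⌊(γ - T / 2) / h0⌋₊ with hj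
    have hx0 : 0 ≤ (γ - T / 2) / h0 := div_nonneg (by linarith) hs0.le
    have hj1 : (j : ℝ) ≤ (γ - T / 2) / h0 := Nat.floor_le hx0
    have hj2 : (γ - T / 2) / h0 < j + 1 := Nat.lt_floor_add_one _
    rw [le_div_iff₀ hs0] at hj1
    rw [div_lt_iff₀ hs0] at hj2
    have hSj : S j = T / 2 + j * h0 := rfl
    have hjJ : j < J := by
      have h3 : (γ - T / 2) / h0 < 7 * T / (2 * h0) := by
        rw [div_lt_div_iff₀ hs0 (by positivity)]
        nlinarith
      have h4 : 7 * T / (2 * h0) ≤ (J : ℝ) := Nat.le_ceil _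
      have h5 : (j : ℝ) < J := lt_of_le_of_lt (Nat.floor_le hx0) (lt_of_lt_of_le h3 h4)
      exact_mod_cast h5
    have hS1 : T / 2 ≤ S j := by
      rw [hSj]
      have : 0 ≤ (j : ℝ) * h0 := by positivity
      linarith
    have hS2 : S j ≤ 4 * T := by rw [hSj]; linarith
    have hz : γ ∈ zset (S j) := by
      refine ⟨?_, ?_, g3⟩
      · rw [hSj]; linarith
      · have : h0 ≤ T / 4 := hs4
        rw [hSj] at hS1 ⊢
        nlinarith
    have hmem : j ∈ (Finset.range J).filter (fun j => S j ≤ 4 * T ∧ γ ∈ zset (S j)) := by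
      rw [Finset.mem_filter, Finset.mem_range]
      exact ⟨hjJ, hS2, hz⟩
    have hnn : ∀ i ∈ (Finset.range J).filter (fun j => S j ≤ 4 * T ∧ γ ∈ zset (S j)),
        0 ≤ (mz γ : ℝ) * MS.wt (S i) γ * F γ := by
      intro i _
      have : 0 ≤ MS.wt (S i) γ := (Real.exp_pos _).le
      have := hF0 γ
      positivity
    have h6 := Finset.single_le_sum hnn hmem
    have hw : 1 / 3 ≤ MS.wt (S j) γ := by
      unfold MS.wt
      obtain ⟨h8, -, -, -⟩ := dd_bounds hT16 hS1 hS2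
      have h9 : |γ - S j| ≤ DD (S j) := by
        rw [abs_of_nonneg (by rw [hSj]; linarith)]
        refine le_trans ?_ h8
        rw [hSj]
        linarith
      have hDD0 : 0 < DD (S j) := lt_of_lt_of_le hs0 h8
      have h10 : -1 ≤ -(γ - S j) ^ 2 / DD (S j) ^ 2 := by
        rw [le_div_iff₀ (by positivity)]
        have := sq_le_sq' (by linarith [abs_nonneg (γ - S j)] : -(DD (S j)) ≤ |γ - S j|) h9
        rw [sq_abs] at this
        linarith
      have h11 : Real.exp (-1) ≤ Real.exp (-(γ - S j) ^ 2 / DD (S j) ^ 2) :=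
        Real.exp_le_exp.2 h10
      have h12 : (1 : ℝ) / 3 ≤ Real.exp (-1) := by
        rw [Real.exp_neg, ← one_div]
        apply one_div_le_one_div_of_le (Real.exp_pos _)
        have := Real.exp_one_lt_d9
        linarith
      linarith
    have h7 : (mz γ : ℝ) * F γ ≤ 3 * ((mz γ : ℝ) * MS.wt (S j) γ * F γ) := by
      have h8 : 0 ≤ (mz γ : ℝ) * F γ := mul_nonneg (Nat.cast_nonneg _) (hF0 γ)
      nlinarith
    linarith
  rw [finsum_mem_eq_finite_toFinset_sum _ (zr_fin T)]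
  calc ∑ γ ∈ (zr_fin T).toFinset, (mz γ : ℝ) * F γ
      ≤ ∑ γ ∈ (zr_fin T).toFinset,
        3 * ∑ j ∈ (Finset.range J).filter (fun j => S j ≤ 4 * T ∧ γ ∈ zset (S j)),
          (mz γ : ℝ) * MS.wt (S j) γ * F γ := Finset.sum_le_sum hcov
    _ = 3 * ∑ γ ∈ (zr_fin T).toFinset, ∑ j ∈ Finset.range J,
          (if S j ≤ 4 * T ∧ γ ∈ zset (S j) then (mz γ : ℝ) * MS.wt (S j) γ * F γ else 0) := by
        rw [← Finset.mul_sum]
        congr 1
        refine Finset.sum_congr rfl fun γ _ => ?_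
        rw [Finset.sum_filter]
    _ = 3 * ∑ j ∈ Finset.range J, ∑ γ ∈ (zr_fin T).toFinset,
          (if S j ≤ 4 * T ∧ γ ∈ zset (S j) then (mz γ : ℝ) * MS.wt (S j) γ * F γ else 0) := by
        rw [Finset.sum_comm]
    _ ≤ 3 * ∑ j ∈ Finset.range J, (6 * T * L / L ^ (2 / 3 : ℝ) * Q + 10) := by
        refine mul_le_mul_of_nonneg_left (Finset.sum_le_sum fun j hj => ?_) (by norm_num)
        rw [Finset.mem_range] at hj
        by_cases hSj : S j ≤ 4 * T
        · refine le_trans ?_ (hone j hj hSj)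
          rw [← Finset.sum_filter]
          refine Finset.sum_le_sum_of_subset_of_nonneg ?_ ?_
          · intro γ hγ
            rw [Finset.mem_filter] at hγ
            rw [Set.Finite.mem_toFinset]
            exact hγ.2.2
          · intro γ _ _
            have : 0 ≤ MS.wt (S j) γ := (Real.exp_pos _).le
            have := hF0 γ
            positivity
        · have h3 : ∑ γ ∈ (zr_fin T).toFinset, (if S j ≤ 4 * T ∧ γ ∈ zset (S j) then
              (mz γ : ℝ) * MS.wt (S j) γ * F γ else 0) = 0 := by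
            refine Finset.sum_eq_zero fun γ _ => ?_
            rw [if_neg]
            rintro ⟨h4, -⟩
            exact hSj h4
          rw [h3]
          have : 0 ≤ 6 * T * L / L ^ (2 / 3 : ℝ) * Q := by positivity
          linarith
    _ = 3 * (J * (6 * T * L / L ^ (2 / 3 : ℝ) * Q + 10)) := by
        rw [Finset.sum_const, Finset.card_range, nsmul_eq_mul]
    _ ≤ 3 * (15 * L ^ (2 / 3 : ℝ) * (6 * T * L / L ^ (2 / 3 : ℝ) * Q + 10)) := by
        have h3 : (J : ℝ) ≤ 15 * L ^ (2 / 3 : ℝ) := by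
          have h4 : (J : ℝ) < 7 * T / (2 * h0) + 1 := Nat.ceil_lt_add_one (by positivity)
          have h5 : 7 * T / (2 * h0) = 14 * L ^ (2 / 3 : ℝ) := by
            rw [hh0]
            unfold stp
            rw [← hL]
            field_simp
            ring
          rw [h5] at h4
          linarith
        have h6 : 0 ≤ 6 * T * L / L ^ (2 / 3 : ℝ) * Q + 10 := by positivity
        have := mul_le_mul_of_nonneg_right h3 h6
        linarith
    _ = 270 * (T * (L * Q)) + 450 * L ^ (2 / 3 : ℝ) := by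
        field_simp
        ring
    _ ≤ 6000 * (T * L * Q + L) := by
        have h3 : 0 ≤ T * L * Q := by positivity
        have h4 : L ^ (2 / 3 : ℝ) ≤ L := by
          calc L ^ (2 / 3 : ℝ) ≤ L ^ (1 : ℝ) :=
                Real.rpow_le_rpow_of_exponent_le hL1 (by norm_num)
            _ = L := Real.rpow_one _
        nlinarith

end Pool.Agent.Lib.MP_6bc78b_nt.GP.H11
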