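import Pool.Agent.Lib.MP_6bc78b_nt.GP.H11.Sqb
import Pool.Agent.Lib.MP_6bc78b_nt.GP.H43.Defs10b

/-! Project GP10, row ZDB (helper11): from SQB. -/

set_option autoImplicit false

open Complex Filter Topology MeasureTheory ArithmeticFunction Set

namespace Pool.Agent.Lib.MP_6bc78b_nt.GP.H11

open Pool.Agent.Lib.MP_6bc78b_nt Pool.Agent.Lib.MP_6bc78b_nt.MS
open Pool.Agent.Lib.MP_6bc78b_nt.GP.G10

/-- The strong form of ZDB: every bound is uniform, and there is no `+ T`. -/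
def ZdbStrong : Prop := RiemannHypothesis → ∃ C T0 : ℝ, 0 < C ∧ 10 < T0 ∧
  ∀ (T : ℝ) (S : Finset ℕ) (β : ℕ → ℝ), T0 ≤ T →
    (∀ m ∈ S, 1 ≤ m ∧ (m : ℝ) ≤ T ^ (1 / 2 : ℝ) / 2 ∧ 0 ≤ β m ∧ β m ≤ T / 4) →
    ∑ᶠ γ ∈ {γ : ℝ | T / 2 < γ ∧ γ < 4 * T ∧ riemannZeta (1 / 2 + γ * I) = 0},
      (mz γ : ℝ) * ‖pB S β (1 / 2 + γ * I)‖ ^ 2 ≤
      C * (T * Real.log T * (∑ m ∈ S, β m ^ 2 / m) + Real.log T)

theorem zdb_strong (hZ : RiemannHypothesis → MS.P5.HM.ZduStatement) : ZdbStrong := by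
  classical
  intro hRH
  obtain ⟨C, T0, hC, hT0, h⟩ := sqb hZ hRH
  refine ⟨C, T0, hC, hT0, fun T S β hT hS => ?_⟩
  have hTp : 0 < T := by linarith
  set d : ℕ → ℝ := fun n => if n ∈ S then β n else 0 with hd
  set N : ℕ := ⌊T ^ (1 / 2 : ℝ) / 2⌋₊ with hN
  have hS' : S ⊆ Finset.Icc 1 N := fun m hm => by
    rw [Finset.mem_Icc]
    exact ⟨(hS m hm).1, Nat.le_floor (hS m hm).2.1⟩
  have h1 := h T hT d N (fun n => by
    simp only [hd]
    split_ifs with hn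
    · exact ⟨(hS n hn).2.2.1, (hS n hn).2.2.2⟩
    · exact ⟨le_refl _, by linarith⟩) (Nat.floor_le (by positivity))
  have h2 : ∀ f : ℕ → ℂ, ∑ n ∈ Finset.Icc 1 N, (d n : ℂ) * f n = ∑ m ∈ S, (β m : ℂ) * f m := by
    intro f
    rw [← Finset.sum_subset hS']
    · refine Finset.sum_congr rfl fun n hn => ?_
      simp only [hd]
      rw [if_pos hn]
    · intro n _ hn
      simp only [hd]
      rw [if_neg hn]
      simp
  have h3 : ∑ n ∈ Finset.Icc 1 N, d n ^ 2 / (n : ℝ) = ∑ m ∈ S, β m ^ 2 / m := by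
    rw [← Finset.sum_subset hS']
    · refine Finset.sum_congr rfl fun n hn => ?_
      simp only [hd]
      rw [if_pos hn]
    · intro n _ hn
      simp only [hd]
      rw [if_neg hn]
      simp
  rw [h3] at h1
  refine le_trans (le_of_eq ?_) h1
  refine finsum_mem_congr rfl fun γ _ => ?_
  congr 3
  rw [h2]
  rfl

/-- For a short polynomial of the class `Mol`, and for every finite set of zeros. -/
theorem zdb_mol (hZ : RiemannHypothesis → MS.P5.HM.ZduStatement) (hRH : RiemannHypothesis) :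
    ∃ C T0 : ℝ, 0 < C ∧ 10 < T0 ∧ ∀ (T ν : ℝ) (S : Finset ℕ) (β : ℕ → ℝ), T0 ≤ T →
    Mol S β (Real.exp (Real.log (Real.log T) ^ 5)) ν →
    ∑ᶠ γ ∈ {γ : ℝ | T / 2 < γ ∧ γ < 4 * T ∧ riemannZeta (1 / 2 + γ * I) = 0},
      (mz γ : ℝ) * ‖pB S β (1 / 2 + γ * I)‖ ^ 2 ≤
      C * (T * Real.log T * (∑ m ∈ S, β m ^ 2 / m) + Real.log T) := by
  obtain ⟨C, T0, hC, hT0, h⟩ := zdb_strong hZ hRH
  -- `exp(l^5) ≤ T^(1/4)` and `16 ≤ T`
  have hev : ∀ᶠ T : ℝ in atTop, Real.log (Real.log T) ^ 5 ≤ 1 / 4 * Real.log T := by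
    have h1 : Tendsto (fun x : ℝ => x ^ 5 * Real.exp (-x)) atTop (𝓝 0) :=
      Real.tendsto_pow_mul_exp_neg_atTop_nhds_zero 5
    have h2 : ∀ᶠ x : ℝ in atTop, x ^ 5 * Real.exp (-x) < 1 / 4 :=
      h1.eventually (gt_mem_nhds (by norm_num))
    have h3 : Tendsto (fun T : ℝ => Real.log (Real.log T)) atTop atTop :=
      Real.tendsto_log_atTop.comp Real.tendsto_log_atTop
    filter_upwards [h3.eventually h2, Real.tendsto_log_atTop.eventually_gt_atTop 0]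
      with T hT hL
    have h4 : Real.exp (-(Real.log (Real.log T))) = (Real.log T)⁻¹ := by
      rw [Real.exp_neg, Real.exp_log hL]
    rw [h4, ← div_eq_mul_inv, div_lt_iff₀ hL] at hT
    exact hT.le
  obtain ⟨T1, hT1⟩ := eventually_atTop.1 hev
  refine ⟨C, max (max T0 T1) 256, hC, lt_of_lt_of_le (by norm_num) (le_max_right _ _),
    fun T ν S β hT hM => ?_⟩
  have hT0' : T0 ≤ T := le_trans (le_max_left _ _) (le_trans (le_max_left _ _) hT)
  have hT1' : T1 ≤ T := le_trans (le_max_right _ _) (le_trans (le_max_left _ _) hT)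
  have hT256 : 256 ≤ T := le_trans (le_max_right _ _) hT
  have hTp : 0 < T := by linarith
  have hq : Real.exp (Real.log (Real.log T) ^ 5) ≤ T ^ (1 / 4 : ℝ) := by
    rw [Real.rpow_def_of_pos hTp, Real.exp_le_exp]
    have := hT1 T hT1'
    linarith
  have h4 : (4 : ℝ) ≤ T ^ (1 / 4 : ℝ) := by
    calc (4 : ℝ) = (256 : ℝ) ^ (1 / 4 : ℝ) := by
          rw [show (256 : ℝ) = 4 ^ (4 : ℝ) by norm_num, ← Real.rpow_mul (by norm_num)]
          norm_num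
      _ ≤ T ^ (1 / 4 : ℝ) := Real.rpow_le_rpow (by norm_num) hT256 (by norm_num)
  have h5 : T ^ (1 / 2 : ℝ) = T ^ (1 / 4 : ℝ) * T ^ (1 / 4 : ℝ) := by
    rw [← Real.rpow_add hTp]
    norm_num
  have h6 : T = T ^ (1 / 2 : ℝ) * T ^ (1 / 2 : ℝ) := by
    rw [← Real.rpow_add hTp]
    norm_num
  have hNle : Real.exp (Real.log (Real.log T) ^ 5) ≤ T ^ (1 / 2 : ℝ) / 2 := by
    rw [h5]
    nlinarith
  have h7 : T ^ (1 / 2 : ℝ) / 2 ≤ T / 4 := by
    have h8 : (16 : ℝ) ≤ T ^ (1 / 2 : ℝ) := by rw [h5]; nlinarith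
    nlinarith
  refine h T S β hT0' fun m hm => ⟨hM.one_le m hm, (hM.le m hm).trans hNle, hM.nonneg m, ?_⟩
  -- `β m / m ≤ 1`
  have hm0 : (0 : ℝ) < m := by
    have := hM.one_le m hm
    exact_mod_cast this
  have h9 : β m / m ≤ 1 := by
    rw [← hM.sum_one]
    exact Finset.single_le_sum (f := fun m : ℕ => β m / m)
      (fun i _ => div_nonneg (hM.nonneg i) (Nat.cast_nonneg i)) hm
  rw [div_le_one hm0] at h9
  calc β m ≤ m := h9
    _ ≤ Real.exp (Real.log (Real.log T) ^ 5) := hM.le m hm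
    _ ≤ T / 4 := hNle.trans h7

/-- Row ZDB. -/
theorem zdb (hZ : RiemannHypothesis → MS.P5.HM.ZduStatement) : ZDBStatement := by
  intro hRH
  obtain ⟨C, T0, hC, hT0, h⟩ := zdb_mol hZ hRH
  refine ⟨C, T0, hC, hT0, fun T S β hT hM => (h T 1 S β hT hM).trans ?_⟩
  have h1 : Real.log T ≤ T := (Real.log_le_sub_one_of_pos (by linarith)).trans (by linarith)
  have h2 : C * (T * Real.log T * (∑ m ∈ S, β m ^ 2 / m) + Real.log T) ≤
      C * (T * Real.log T * (∑ m ∈ S, β m ^ 2 / m) + T) := by gcongr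
  refine h2.trans (le_of_eq ?_)
  ring

/-- The form with distinct zeros and any finite set of them. -/
theorem zdb_fin (hZ : RiemannHypothesis → MS.P5.HM.ZduStatement) (hRH : RiemannHypothesis) :
    ∃ C T0 : ℝ, 0 < C ∧ 10 < T0 ∧ ∀ (T ν : ℝ) (S : Finset ℕ) (β : ℕ → ℝ), T0 ≤ T →
    Mol S β (Real.exp (Real.log (Real.log T) ^ 5)) ν → ∀ F : Finset ℝ,
    (∀ γ ∈ F, T / 2 < γ ∧ γ < 4 * T ∧ riemannZeta (1 / 2 + γ * I) = 0) →
    ∑ γ ∈ F, ‖pB S β (1 / 2 + γ * I)‖ ^ 2 ≤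
      C * (T * Real.log T * (∑ m ∈ S, β m ^ 2 / m) + Real.log T) := by
  obtain ⟨C, T0, hC, hT0, h⟩ := zdb_mol hZ hRH
  refine ⟨C, T0, hC, hT0, fun T ν S β hT hM F hF => le_trans ?_ (h T ν S β hT hM)⟩
  have hfin : {γ : ℝ | T / 2 < γ ∧ γ < 4 * T ∧ riemannZeta (1 / 2 + γ * I) = 0}.Finite := zr_fin T
  rw [finsum_mem_eq_finite_toFinset_sum _ hfin]
  calc ∑ γ ∈ F, ‖pB S β (1 / 2 + γ * I)‖ ^ 2
      ≤ ∑ γ ∈ F, (mz γ : ℝ) * ‖pB S β (1 / 2 + γ * I)‖ ^ 2 := by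
        refine Finset.sum_le_sum fun γ hγ => ?_
        have h1 : (1 : ℝ) ≤ mz γ := by
          have := MS.P4.H30.zfac.2.2.1 γ (hF γ hγ).2.2
          exact_mod_cast this
        have h2 : 0 ≤ ‖pB S β (1 / 2 + γ * I)‖ ^ 2 := by positivity
        nlinarith
    _ ≤ ∑ γ ∈ hfin.toFinset, (mz γ : ℝ) * ‖pB S β (1 / 2 + γ * I)‖ ^ 2 := by
        refine Finset.sum_le_sum_of_subset_of_nonneg ?_ ?_
        · intro γ hγ
          rw [Set.Finite.mem_toFinset]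
          exact hF γ hγ
        · intro γ _ _
          positivity

end Pool.Agent.Lib.MP_6bc78b_nt.GP.H11
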